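import Mathlib

open MeasureTheory Set
open scoped ENNReal RealInnerProductSpace

namespace Pool.Agent.Results.MP_73c876_an.Cex

variable {X : Type} [MeasurableSpace X]

/-- under-recurrent set -/
def URSet (μ : Measure X) (T : X → X) (A : Set X) : Prop :=
  MeasurableSet A ∧ 0 < μ.real A ∧ μ.real A < 1 ∧
    ∀ n : ℕ, 1 ≤ n → μ.real (A ∩ T^[n] ⁻¹' A) ≤ μ.real A ^ 2

/-- under-recurrent function -/
def URFun (μ : Measure X) (T : X → X) (f : X → ℝ) : Prop :=
  MemLp f 2 μ ∧ (¬ ∃ c, f =ᵐ[μ] fun _ => c) ∧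
    ∀ n : ℕ, 1 ≤ n → ∫ x, f x * f (T^[n] x) ∂μ ≤ (∫ x, f x ∂μ) ^ 2

lemma khin {ν : Measure X} [IsProbabilityMeasure ν] {T : X → X} (hT : MeasurePreserving T ν ν)
    {A : Set X} (hA : MeasurableSet A) {η : ℝ} (e : 0 < η)
    (h : ∀ n : ℕ, 1 ≤ n → ν.real (A ∩ T^[n] ⁻¹' A) ≤ ν.real A ^ 2 - η) : False := by
  have m : ∀ n, MeasurableSet (T^[n] ⁻¹' A) := fun n => (hT.iterate n).measurable hA
  have r : ∀ n s, MeasurableSet s → ν.real (T^[n] ⁻¹' s) = ν.real s := fun n s hs =>
    (hT.iterate n).measureReal_preimage hs.nullMeasurableSet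
  let u : Lp ℝ 2 ν := indicatorConstLp 2 MeasurableSet.univ (measure_ne_top _ _) 1
  let v : ℕ → Lp ℝ 2 ν := fun n => indicatorConstLp 2 (m n) (measure_ne_top _ _) 1 - ν.real A • u
  have c : ∀ i j, ⟪v i, v j⟫ = ν.real (T^[i] ⁻¹' A ∩ T^[j] ⁻¹' A) - ν.real A ^ 2 := fun i j => by
    simp only [v, u, inner_sub_left, inner_sub_right, real_inner_smul_left, real_inner_smul_right,
      L2.real_inner_indicatorConstLp_one_indicatorConstLp_one, univ_inter, inter_univ, r _ _ hA,
      probReal_univ]
    ring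
  have d : ∀ i j, i < j → ν.real (T^[i] ⁻¹' A ∩ T^[j] ⁻¹' A) ≤ ν.real A ^ 2 - η := fun i j l => by
    obtain ⟨k, rfl⟩ := Nat.exists_eq_add_of_le' l.le
    rw [Function.iterate_add, preimage_comp, ← preimage_inter, r _ _ (hA.inter (m k))]
    exact h k (by omega)
  obtain ⟨N, hN⟩ := exists_nat_gt ((1 + η) / η)
  have N0 : (0 : ℝ) < N := lt_trans (by positivity) hN
  have := real_inner_self_nonneg (x := ∑ i ∈ Finset.range N, v i)
  rw [sum_inner] at this
  replace this := this.trans (Finset.sum_le_sum (g := fun _ => 1 + η - N * η) fun i hi => by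
    rw [inner_sum]
    refine (Finset.sum_le_sum (g := fun j => (if j = i then 1 + η else 0) - η) fun j _ => ?_).trans
      (by simp [Finset.mem_range.1 hi])
    rw [c]
    rcases lt_trichotomy i j with l | rfl | l
    · rw [if_neg l.ne']; linarith [d i j l]
    · rw [if_pos rfl]
      linarith [measureReal_le_one (μ := ν) (s := T^[i] ⁻¹' A ∩ T^[i] ⁻¹' A), sq_nonneg (ν.real A)]
    · rw [if_neg l.ne, inter_comm]; linarith [d j i l])
  rw [div_lt_iff₀ e] at hN
  simp only [Finset.sum_const, Finset.card_range, nsmul_eq_mul] at this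
  nlinarith

theorem result : ∃ (X : Type) (_ : MeasurableSpace X) (μ : Measure X) (T : X → X),
    IsProbabilityMeasure μ ∧ MeasurePreserving T μ μ ∧
      (∃ f, URFun μ T f ∧ ∀ᵐ x ∂μ, 0 ≤ f x ∧ f x ≤ 1) ∧ ¬ ∃ A, URSet μ T A := by
  let ν : Measure UnitAddCircle := AddCircle.haarAddCircle
  let T : UnitAddCircle → UnitAddCircle := fun x => (2 : ℤ) • x
  let μ : Measure UnitAddCircle := (2⁻¹ : ℝ≥0∞) • ν + (2⁻¹ : ℝ≥0∞) • Measure.dirac 0
  have hT : MeasurePreserving T ν ν := Measure.measurePreserving_zsmul ν two_ne_zero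
  have T0 : ∀ n, T^[n] 0 = 0 := fun n => Function.iterate_fixed (by simp [T]) n
  haveI : IsProbabilityMeasure μ := ⟨by simp [μ, ENNReal.inv_two_add_inv_two]⟩
  let h : UnitAddCircle → ℝ := fun x => (fourier 1 x).im
  have hc : Continuous h := by fun_prop
  have h0 : h 0 = 0 := by simp [h]
  have h1 : ∀ x, |h x| ≤ 1 := fun x => (Complex.abs_im_le_norm _).trans (by simp)
  have ho : ∀ x, h (x + ((1 / 2 / (1 : ℤ) : ℝ) : UnitAddCircle)) = -h x := fun x => by
    simp only [h]; rw [fourier_add_half_inv_index one_ne_zero one_pos, Complex.neg_im]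
  have I : ∀ g : UnitAddCircle → ℝ, Continuous g → ∫ x, g x ∂μ = (∫ x, g x ∂ν + g 0) / 2 := fun g hg => by
    have : ∀ (ρ : Measure UnitAddCircle) [IsFiniteMeasure ρ], Integrable g ρ := fun ρ _ =>
      hg.integrable_of_hasCompactSupport (HasCompactSupport.of_compactSpace g)
    rw [integral_add_measure ((this _).smul_measure (by simp)) ((this _).smul_measure (by simp))]
    simp; ring
  have J : ∀ g : UnitAddCircle → ℝ, Continuous g → Integrable g ν := fun g hg =>
    hg.integrable_of_hasCompactSupport (HasCompactSupport.of_compactSpace g)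
  have z : ∫ x, h x ∂ν = 0 := integral_eq_zero_of_add_right_eq_neg ho
  have f1 : ∫ x, (1 + h x) / 2 ∂ν = 1 / 2 := by
    rw [integral_div, integral_add (integrable_const _) (J _ hc), z]; simp
  refine ⟨_, inferInstance, μ, T, inferInstance, (hT.smul_measure _).add_measure
    (MeasurePreserving.smul_measure ⟨hT.measurable, by simpa [hT.measurable] using congrArg _ (T0 1)⟩ _),
    ⟨fun x => (1 + h x) / 2, ⟨MemLp.of_bound (by fun_prop) 1 (.of_forall fun x => ?_), ?_, fun n hn => ?_⟩,
      .of_forall fun x => by constructor <;> linarith [abs_le.1 (h1 x)]⟩, fun ⟨A, hA, a0, a1, a⟩ => ?_⟩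
  · rw [Real.norm_eq_abs, abs_le]; constructor <;> linarith [abs_le.1 (h1 x)]
  · rintro ⟨c, e⟩
    have := (Continuous.ae_eq_iff_eq ν (by fun_prop) continuous_const).1
      ((Measure.absolutelyContinuous_smul (by simp)).ae_le (ae_add_measure_iff.1 e).1)
    have := (congrFun this 0).trans (congrFun this ((1 / 4 : ℝ) : UnitAddCircle)).symm
    have q : h ((1 / 4 : ℝ) : UnitAddCircle) = 1 := by
      simp only [h]
      rw [fourier_coe_apply]
      refine Eq.trans ?_ ((congrArg Complex.im Complex.exp_pi_div_two_mul_I).trans Complex.I_im)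
      congr 2; push_cast; ring
    simp only [h0, q] at this; norm_num at this
  · have tc : Continuous T^[n] := Continuous.iterate (by fun_prop) n
    have : ∫ x, h x * ((1 + h (T^[n] x)) / 2) ∂ν = 0 := integral_eq_zero_of_add_right_eq_neg
      (g := ((1 / 2 / (1 : ℤ) : ℝ) : UnitAddCircle)) fun x => by
        obtain ⟨n, rfl⟩ := Nat.exists_eq_add_of_le' hn
        have : T (x + ((1 / 2 / (1 : ℤ) : ℝ) : UnitAddCircle)) = T x := by
          simp only [T, smul_add, ← AddCircle.coe_zsmul]; norm_num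
        rw [ho, Function.iterate_succ_apply, this, ← Function.iterate_succ_apply, neg_mul]
    have k : ∫ x, (1 + h (T^[n] x)) / 2 ∂ν = 1 / 2 := by
      rw [← f1, ← integral_map (hT.iterate n).measurable.aemeasurable (f := fun x => (1 + h x) / 2)
        (by fun_prop), (hT.iterate n).map_eq]
    rw [I _ (by fun_prop), I _ (by fun_prop), f1, T0]
    simp_rw [div_mul_eq_mul_div _ (2 : ℝ), add_mul, one_mul]
    rw [integral_div, integral_add (J _ (by fun_prop)) (J _ (by fun_prop)), this, k, h0]
    norm_num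
  · have R : ∀ s, μ.real s = (ν.real s + s.indicator 1 0) / 2 := fun s => by
      by_cases q : (0 : UnitAddCircle) ∈ s <;>
        simp [μ, Measure.real, q, ENNReal.toReal_add, ENNReal.mul_eq_top] <;> ring
    simp only [R] at a0 a1 a
    by_cases q : (0 : UnitAddCircle) ∈ A
    · refine khin hT hA (η := (1 - ν.real A) ^ 2 / 2) (by
        have : 0 < 1 - ν.real A := by simp [q] at a1; linarith
        positivity) fun n hn => ?_
      have := a n hn
      simp [q, T0] at this; linarith
    · refine khin hT hA (η := ν.real A ^ 2 / 2) (by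
        have : 0 < ν.real A := by simpa [q] using a0
        positivity) fun n hn => ?_
      have := a n hn
      simp [q] at this; linarith

end Pool.Agent.Results.MP_73c876_an.Cex
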